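import Mathlib
import Pool.Agent.H99.WC.Perm
import Pool.Agent.H56.WC.Good

set_option autoImplicit false

namespace Pool.Agent.Results.MP_d5a689_co.TwoInfinitelyOften

/-- A permutation `σ` of `[k] = {1, …, k}` is weakly consecutive if for all `m, i, j ∈ [k]`:
`m ∣ σ i` and `m ∣ i - j` imply `m ∣ σ j`. -/
def WeaklyConsecutive (k : ℕ) (σ : Equiv.Perm (Set.Icc 1 k)) : Prop :=
  ∀ m i j : Set.Icc 1 k, (m : ℕ) ∣ (σ i : ℕ) → ((m : ℕ) : ℤ) ∣ ((i : ℕ) : ℤ) - ((j : ℕ) : ℤ) →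
    (m : ℕ) ∣ (σ j : ℕ)

/-- `N k`: the number of weakly consecutive permutations of `[k]`. -/
noncomputable def N (k : ℕ) : ℕ :=
  Nat.card {σ : Equiv.Perm (Set.Icc 1 k) // WeaklyConsecutive k σ}

/-- `N k = 2` for infinitely many `k`. -/
theorem result : {k : ℕ | 2 ≤ k ∧ N k = 2}.Infinite := by
  apply Set.infinite_of_forall_exists_gt
  intro K
  obtain ⟨k, c, hk, hmod, h1, h2, hbad⟩ :=
    Pool.Agent.H56.WC.exists_good 12 3 (K + 2) (by norm_num) (by norm_num)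
  exact ⟨k, ⟨by omega, Pool.Agent.H99.WC.N_eq_two hmod h1 h2 hbad⟩, by omega⟩

end Pool.Agent.Results.MP_d5a689_co.TwoInfinitelyOften
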